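import Mathlib

/-!
# MP_fdc1ac_lc : a `σ`-closed topological Ramsey space with `𝔭_R = ℵ₀ < ℵ₁ ≤ 𝔱_R = 𝔱`
-/

namespace Pool.Agent.Results.MP_fdc1ac_lc.CountablePseudointersection

open Set Cardinal

/-! ## Definitions: topological Ramsey spaces -/

/-- `a ⊑ b`: `a = r_m(A)` and `b = r_n(A)` for some `A` and some `m ≤ n`. -/
def Init {R AR : Type} (r : ℕ → R → AR) (a b : AR) : Prop :=
  ∃ (A : R) (m n : ℕ), m ≤ n ∧ r m A = a ∧ r n A = b

/-- `depth_B(a) = n`: `n` is least with `a ≤_fin r_n(B)`. -/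
def IsDepth {R AR : Type} (fin : Preorder AR) (r : ℕ → R → AR) (B : R) (a : AR) (n : ℕ) : Prop :=
  fin.le a (r n B) ∧ ∀ m < n, ¬ fin.le a (r m B)

/-- `[a,B] = {A ≤ B : ∃ n, r_n(A) = a}`. -/
def basic {R AR : Type} (ord : Preorder R) (r : ℕ → R → AR) (a : AR) (B : R) : Set R :=
  {A | ord.le A B ∧ ∃ n, r n A = a}

/-- Topological Ramsey spaces (Todorcevic): the triple `(R, ≤, r)` with `≤_fin`, axioms A.1-A.4,
and `R` closed in `AR^ω`, where `AR = ⋃ₙ AR_n`, `AR_n = {r_n(A) : A ∈ R}`. -/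
structure TopRamseySpace (R : Type) where
  nonempty : Nonempty R
  /-- the quasi-order `≤` -/
  ord : Preorder R
  /-- the set `AR` of finite approximations -/
  AR : Type
  /-- the approximation maps -/
  r : ℕ → R → AR
  r_surj : ∀ a : AR, ∃ n A, r n A = a
  A1_zero : ∀ A B, r 0 A = r 0 B
  A1_inj : ∀ A B, A ≠ B → ∃ n, r n A ≠ r n B
  A1_eq : ∀ n m A B, r n A = r m B → n = m ∧ ∀ k < n, r k A = r k B
  /-- the quasi-order `≤_fin` -/
  fin : Preorder AR
  A2_finite : ∀ b, {a | fin.le a b}.Finite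
  A2_iff : ∀ A B, ord.le A B ↔ ∀ n, ∃ m, fin.le (r n A) (r m B)
  A2_init : ∀ a b c, Init r a b → fin.le b c → ∃ d, Init r d c ∧ fin.le a d
  A3_one : ∀ a B n, IsDepth fin r B a n →
    ∀ A ∈ basic ord r (r n B) B, (basic ord r a A).Nonempty
  A3_two : ∀ a B n, IsDepth fin r B a n → ∀ A, ord.le A B → (basic ord r a A).Nonempty →
    ∃ A' ∈ basic ord r (r n B) B, (basic ord r a A').Nonempty ∧
      basic ord r a A' ⊆ basic ord r a A
  A4 : ∀ a B n, IsDepth fin r B a n → ∀ k, (∃ C, r k C = a) → ∀ O : Set AR,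
    ∃ A ∈ basic ord r (r n B) B,
      (∀ C ∈ basic ord r a A, r (k + 1) C ∈ O) ∨ (∀ C ∈ basic ord r a A, r (k + 1) C ∉ O)
  closed : @IsClosed (ℕ → AR) (@Pi.topologicalSpace ℕ (fun _ => AR) (fun _ => ⊥))
    (Set.range fun A n => r n A)

/-- `A` and `B` have a common lower bound. -/
def Compat {R : Type} (P : Preorder R) (A B : R) : Prop := ∃ C, P.le C A ∧ P.le C B

/-- The separative preorder of `P`: `A ≲ B` iff every `C ≤ A` is compatible with `B`. -/
@[reducible] def sep {R : Type} (P : Preorder R) : Preorder R where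
  le A B := ∀ C, P.le C A → Compat P C B
  lt A B := (∀ C, P.le C A → Compat P C B) ∧ ¬ ∀ C, P.le C B → Compat P C A
  le_refl A C h := ⟨C, P.le_refl C, h⟩
  le_trans A B C h1 h2 D hD := by
    obtain ⟨E, h3, h4⟩ := h1 D hD
    obtain ⟨F, h5, h6⟩ := h2 E h4
    exact ⟨F, P.le_trans _ _ _ h5 h3, h6⟩

/-- The separative quotient of a quasi-order. -/
def SepQuotient {R : Type} (P : Preorder R) : Type :=
  @Antisymmetrization R (sep P).le (@instIsPreorderLe R (sep P))

instance {R : Type} (P : Preorder R) : PartialOrder (SepQuotient P) :=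
  @instPartialOrderAntisymmetrization R (sep P)

/-- `σ`-closed topological Ramsey spaces `(R, ≤, ≤*, r)`. -/
structure SigmaClosedTRS (R : Type) extends TopRamseySpace R where
  /-- the quasi-order `≤*` -/
  star : Preorder R
  coarsens : ∀ A B, ord.le A B → star.le A B
  sigma_closed : ∀ f : ℕ → R, (∀ n, star.le (f (n + 1)) (f n)) → ∃ Y, ∀ n, star.le Y (f n)
  sepIso : Nonempty (SepQuotient ord ≃o SepQuotient star)

namespace SigmaClosedTRS

variable {R : Type} (S : SigmaClosedTRS R)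

/-- `Y` is a pseudointersection of `F`. -/
def IsPseudo (F : Set R) (Y : R) : Prop := ∀ X ∈ F, S.star.le Y X

/-- `F` has the SFIP. -/
def SFIP (F : Set R) : Prop := ∀ G ⊆ F, G.Finite → ∃ Y, S.IsPseudo G Y

/-- `F` has the SFIP and no pseudointersection. -/
def PFamily (F : Set R) : Prop := S.SFIP F ∧ ¬ ∃ Y, S.IsPseudo F Y

/-- `F` is a tower: linearly ordered by `≥*` and without pseudointersection. -/
def IsTower (F : Set R) : Prop :=
  (∀ A ∈ F, ∀ B ∈ F, S.star.le A B ∨ S.star.le B A) ∧ ¬ ∃ Y, S.IsPseudo F Y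

/-- `𝔭_R`. -/
noncomputable def pNumber : Cardinal := sInf {c | ∃ F : Set R, S.PFamily F ∧ #F = c}

/-- `𝔱_R`. -/
noncomputable def tNumber : Cardinal := sInf {c | ∃ F : Set R, S.IsTower F ∧ #F = c}

end SigmaClosedTRS

/-- A classical tower: a family of infinite subsets of `ω`, linearly ordered by `⊇*`, without
infinite pseudointersection. -/
def ClassicalTower (T : Set (Set ℕ)) : Prop :=
  (∀ C ∈ T, C.Infinite) ∧ (∀ C ∈ T, ∀ D ∈ T, (C \ D).Finite ∨ (D \ C).Finite) ∧
    ¬ ∃ Y : Set ℕ, Y.Infinite ∧ ∀ C ∈ T, (Y \ C).Finite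

/-- The classical tower number `𝔱`. -/
noncomputable def classicalT : Cardinal := sInf {c | ∃ T : Set (Set ℕ), ClassicalTower T ∧ #T = c}

/-! ## The space -/

/-- labels (columns): `inl n` is the private column of `n`, `inr m` the `m`-th public column -/
abbrev Lab := ℕ ⊕ ℕ

/-- types of elements: `inl n` (full of index `n`), `inr κ` (column element in column `κ`) -/
abbrev Typ := ℕ ⊕ Lab

/-- the label of the `j`-th entry of an element of type `t` -/
def lab : Typ → ℕ → Lab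
  | .inl n, j => if (Nat.unpair j).1 ≤ n then .inl n else .inr (Nat.unpair j).1
  | .inr κ, _ => κ

/-- elements: a type and a strictly increasing sequence -/
@[ext] structure Elt where
  typ : Typ
  seq : ℕ → ℕ
  mono : StrictMono seq

/-- the label of the `j`-th entry of `A` -/
def Elt.lb (A : Elt) (j : ℕ) : Lab := lab A.typ j

/-- the column `κ` of `A` -/
def col (A : Elt) (κ : Lab) : Set ℕ := {x | ∃ j, A.seq j = x ∧ A.lb j = κ}

lemma lab_rec (t : Typ) (i N : ℕ) : ∃ j, N ≤ j ∧ lab t j = lab t i := by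
  rcases t with n | κ
  · refine ⟨Nat.pair (Nat.unpair i).1 N, Nat.right_le_pair _ _, ?_⟩
    simp [lab]
  · exact ⟨N, le_refl _, rfl⟩

lemma lab_priv (n : ℕ) : lab (.inl n) 0 = .inl n := by
  simp [lab]

lemma lab_pub (n m : ℕ) (h : n < m) : .inr m ∈ Set.range (lab (.inl n)) := by
  refine ⟨Nat.pair m 0, ?_⟩
  simp [lab, h]

lemma mem_range_lab_inl {n : ℕ} {κ : Lab} (h : κ ∈ Set.range (lab (.inl n))) :
    κ = .inl n ∨ ∃ m, n < m ∧ κ = .inr m := by
  obtain ⟨j, rfl⟩ := h
  by_cases h : (Nat.unpair j).1 ≤ n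
  · left; simp [lab, h]
  · right; exact ⟨_, not_le.mp h, by simp [lab, h]⟩

lemma typ_of_range_subset_singleton {t : Typ} {κ : Lab} (h : ∀ j, lab t j = κ) : t = .inr κ := by
  rcases t with n | κ'
  · exfalso
    have h0 := lab_priv n
    obtain ⟨j, hj⟩ := lab_pub n (n + 1) (Nat.lt_succ_self n)
    have h1 := h 0
    have h2 := h j
    rw [h0] at h1
    rw [hj] at h2
    rw [← h1] at h2
    cases h2
  · have := h 0
    simp only [lab] at this
    rw [this]

/-- types below a given type -/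
lemma typ_below {t t' : Typ} (h : Set.range (lab t) ⊆ Set.range (lab t')) :
    t = t' ∨ t = .inr (lab t 0) := by
  rcases t with n | κ
  · left
    have h1 : (Sum.inl n : Lab) ∈ Set.range (lab t') := h ⟨0, lab_priv n⟩
    rcases t' with n' | κ'
    · rcases mem_range_lab_inl h1 with h2 | ⟨m, _, h2⟩
      · cases h2; rfl
      · cases h2
    · exfalso
      obtain ⟨j, hj⟩ := lab_pub n (n + 1) (Nat.lt_succ_self n)
      have h2 : (Sum.inr (n + 1) : Lab) ∈ Set.range (lab (.inr κ')) := h ⟨j, hj⟩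
      obtain ⟨j1, h1⟩ := h1
      obtain ⟨j2, h2⟩ := h2
      simp only [lab] at h1 h2
      rw [h1] at h2
      cases h2
  · right; rfl

lemma lb_rec (A : Elt) (i N : ℕ) : ∃ j, N ≤ j ∧ A.lb j = A.lb i := lab_rec A.typ i N

lemma col_infinite (A : Elt) {κ : Lab} (h : κ ∈ Set.range A.lb) : (col A κ).Infinite := by
  obtain ⟨i, rfl⟩ := h
  rw [Set.infinite_iff_exists_gt]
  intro N
  obtain ⟨j, hj, hl⟩ := lb_rec A i (N + 1)
  exact ⟨A.seq j, ⟨j, rfl, hl⟩, lt_of_lt_of_le (Nat.lt_of_lt_of_le (Nat.lt_succ_self N) hj)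
    (A.mono.id_le j)⟩

lemma mem_range_of_col {A : Elt} {κ : Lab} (h : (col A κ).Nonempty) : κ ∈ Set.range A.lb := by
  obtain ⟨x, j, _, hj⟩ := h
  exact ⟨j, hj⟩

/-- the greedy construction -/
lemma greedy (t : Typ) (k : ℕ) (s : ℕ → ℕ) (hs : ∀ j, j + 1 < k → s j < s (j + 1))
    (H : ℕ → Set ℕ) (hH : ∀ j, k ≤ j → (H j).Infinite) :
    ∃ C : Elt, C.typ = t ∧ (∀ j < k, C.seq j = s j) ∧ ∀ j, k ≤ j → C.seq j ∈ H j := by
  have hnext : ∀ j x, ∃ y, k ≤ j → (y ∈ H j ∧ x < y) := by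
    intro j x
    by_cases hj : k ≤ j
    · obtain ⟨y, hy, hxy⟩ := (Set.infinite_iff_exists_gt.mp (hH j hj)) x
      exact ⟨y, fun _ => ⟨hy, hxy⟩⟩
    · exact ⟨0, fun h => absurd h hj⟩
  choose next hnext using hnext
  let X : ℕ → ℕ := fun n => Nat.rec (if 0 < k then s 0 else next 0 0)
    (fun j x => if j + 1 < k then s (j + 1) else next (j + 1) x) n
  have X0 : X 0 = if 0 < k then s 0 else next 0 0 := rfl
  have XS : ∀ j, X (j + 1) = if j + 1 < k then s (j + 1) else next (j + 1) (X j) := fun j => rfl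
  have Xlt : ∀ j, j < k → X j = s j := by
    intro j hj
    cases j with
    | zero => rw [X0, if_pos hj]
    | succ j => rw [XS, if_pos hj]
  have Xge : ∀ j, k ≤ j → X j ∈ H j := by
    intro j hj
    cases j with
    | zero => rw [X0, if_neg (not_lt.mpr hj)]; exact (hnext _ _ hj).1
    | succ j => rw [XS, if_neg (not_lt.mpr hj)]; exact (hnext _ _ hj).1
  have Xmono : StrictMono X := by
    apply strictMono_nat_of_lt_succ
    intro j
    by_cases hj : j + 1 < k
    · rw [Xlt j (by omega), Xlt _ hj]; exact hs j hj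
    · rw [XS, if_neg hj]; exact (hnext _ _ (not_lt.mp hj)).2
  exact ⟨⟨t, X, Xmono⟩, rfl, Xlt, Xge⟩

/-- the order `≤` -/
def le (A B : Elt) : Prop := ∀ j, ∃ i, A.seq j = B.seq i ∧ A.lb j = B.lb i

lemma le_iff_col {A B : Elt} : le A B ↔ ∀ κ, col A κ ⊆ col B κ := by
  constructor
  · rintro h κ x ⟨j, rfl, rfl⟩
    obtain ⟨i, h1, h2⟩ := h j
    exact ⟨i, h1.symm, h2.symm⟩
  · intro h j
    obtain ⟨i, h1, h2⟩ := h (A.lb j) ⟨j, rfl, rfl⟩
    exact ⟨i, h1.symm, h2.symm⟩

/-- `≤` as a quasi-order -/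
@[reducible] def ordP : Preorder Elt where
  le := le
  le_refl A j := ⟨j, rfl, rfl⟩
  le_trans A B C h1 h2 j := by
    obtain ⟨i, h3, h4⟩ := h1 j
    obtain ⟨l, h5, h6⟩ := h2 i
    exact ⟨l, h3.trans h5, h4.trans h6⟩

/-- the order `≤*` -/
def leStar (A B : Elt) : Prop := ∀ κ, (col A κ \ col B κ).Finite

/-- `≤*` as a quasi-order -/
@[reducible] def starP : Preorder Elt where
  le := leStar
  le_refl A κ := by simp
  le_trans A B C h1 h2 κ := by
    refine ((h1 κ).union (h2 κ)).subset ?_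
    rintro x ⟨hx, hx'⟩
    by_cases hB : x ∈ col B κ
    · exact Or.inr ⟨hB, hx'⟩
    · exact Or.inl ⟨hx, hB⟩

lemma range_of_le {A B : Elt} (h : le A B) : Set.range A.lb ⊆ Set.range B.lb := by
  rintro _ ⟨j, rfl⟩
  obtain ⟨i, _, hi⟩ := h j
  exact ⟨i, hi.symm⟩

lemma col_inter_infinite {A B : Elt} (h : leStar A B) {κ : Lab} (hκ : κ ∈ Set.range A.lb) :
    (col A κ ∩ col B κ).Infinite := by
  intro hfin
  apply col_infinite A hκ
  refine ((h κ).union hfin).subset ?_
  intro x hx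
  by_cases hB : x ∈ col B κ
  · exact Or.inr ⟨hx, hB⟩
  · exact Or.inl ⟨hx, hB⟩

lemma range_of_leStar {A B : Elt} (h : leStar A B) : Set.range A.lb ⊆ Set.range B.lb := by
  intro κ hκ
  obtain ⟨x, _, hx⟩ := (col_inter_infinite h hκ).nonempty
  exact mem_range_of_col ⟨x, hx⟩

/-- raw approximations -/
abbrev Raw := Typ × ℕ × (ℕ → ℕ)

/-- the approximation maps: `r_n(A)` records `n`, the first `n` entries, and (if `n > 0`) the type -/
def rr (n : ℕ) (A : Elt) : Raw :=
  (if n = 0 then .inl 0 else A.typ, n, fun j => if j < n then A.seq j else 0)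

lemma rr_eq_iff {n m : ℕ} {A B : Elt} :
    rr n A = rr m B ↔ n = m ∧ (0 < n → A.typ = B.typ) ∧ ∀ j < n, A.seq j = B.seq j := by
  constructor
  · intro h
    simp only [rr, Prod.mk.injEq] at h
    obtain ⟨h1, h2, h3⟩ := h
    subst h2
    refine ⟨rfl, ?_, ?_⟩
    · intro hn
      rw [if_neg (by omega), if_neg (by omega)] at h1
      exact h1
    · intro j hj
      have := congrFun h3 j
      simpa [hj] using this
  · rintro ⟨rfl, h1, h2⟩
    simp only [rr, Prod.mk.injEq]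
    refine ⟨?_, trivial, ?_⟩
    · by_cases hn : n = 0
      · simp [hn]
      · rw [if_neg hn, if_neg hn, h1 (Nat.pos_of_ne_zero hn)]
    · funext j
      by_cases hj : j < n
      · simp [hj, h2 j hj]
      · simp [hj]

/-- `AR` -/
abbrev AR := {a : Raw // ∃ n A, rr n A = a}

/-- `r` with values in `AR` -/
def r (n : ℕ) (A : Elt) : AR := ⟨rr n A, n, A, rfl⟩

lemma r_eq_iff {n m : ℕ} {A B : Elt} :
    r n A = r m B ↔ n = m ∧ (0 < n → A.typ = B.typ) ∧ ∀ j < n, A.seq j = B.seq j := by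
  rw [← rr_eq_iff]
  exact Subtype.mk_eq_mk

/-- `≤_fin` on raw approximations -/
def finLe (a b : Raw) : Prop :=
  (a.2.1 = 0 ∧ b.2.1 = 0) ∨ (0 < a.2.1 ∧ 0 < b.2.1 ∧
    Set.range (lab a.1) ⊆ Set.range (lab b.1) ∧ a.2.2 (a.2.1 - 1) = b.2.2 (b.2.1 - 1) ∧
    ∀ j < a.2.1, ∃ i < b.2.1, a.2.2 j = b.2.2 i ∧ lab a.1 j = lab b.1 i)

/-- `≤_fin` as a quasi-order on `AR` -/
@[reducible] def finP : Preorder AR where
  le a b := finLe a.1 b.1
  lt a b := finLe a.1 b.1 ∧ ¬ finLe b.1 a.1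
  le_refl a := by
    rcases Nat.eq_zero_or_pos a.1.2.1 with h | h
    · exact Or.inl ⟨h, h⟩
    · exact Or.inr ⟨h, h, le_refl _, rfl, fun j hj => ⟨j, hj, rfl, rfl⟩⟩
  le_trans a b c h1 h2 := by
    rcases h1 with h1 | h1 <;> rcases h2 with h2 | h2
    · exact Or.inl ⟨h1.1, h2.2⟩
    · have := h1.2; have := h2.1; omega
    · have := h1.2.1; have := h2.1; omega
    · obtain ⟨ha, hb, hr, hl, hc⟩ := h1
      obtain ⟨_, hc', hr', hl', hc''⟩ := h2
      refine Or.inr ⟨ha, hc', hr.trans hr', hl.trans hl', ?_⟩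
      intro j hj
      obtain ⟨i, hi, h3, h4⟩ := hc j hj
      obtain ⟨l, hl, h5, h6⟩ := hc'' i hi
      exact ⟨l, hl, h3.trans h5, h4.trans h6⟩

lemma fin_iff {n m : ℕ} {A B : Elt} : finP.le (r n A) (r m B) ↔
    (n = 0 ∧ m = 0) ∨ (0 < n ∧ 0 < m ∧ Set.range A.lb ⊆ Set.range B.lb ∧
      A.seq (n - 1) = B.seq (m - 1) ∧
      ∀ j < n, ∃ i < m, A.seq j = B.seq i ∧ A.lb j = B.lb i) := by
  change finLe (rr n A) (rr m B) ↔ _
  simp only [finLe, rr]
  constructor
  · rintro (h | ⟨h1, h2, h3, h4, h5⟩)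
    · exact Or.inl h
    · right
      rw [if_neg (by omega), if_neg (by omega)] at h3
      rw [if_pos (by omega), if_pos (by omega)] at h4
      refine ⟨h1, h2, h3, h4, ?_⟩
      intro j hj
      obtain ⟨i, hi, h6, h7⟩ := h5 j hj
      rw [if_pos hj, if_pos hi] at h6
      rw [if_neg (by omega), if_neg (by omega)] at h7
      exact ⟨i, hi, h6, h7⟩
  · rintro (h | ⟨h1, h2, h3, h4, h5⟩)
    · exact Or.inl h
    · right
      rw [if_neg (by omega), if_neg (by omega)]
      rw [if_pos (by omega), if_pos (by omega)]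
      refine ⟨h1, h2, h3, h4, ?_⟩
      intro j hj
      obtain ⟨i, hi, h6, h7⟩ := h5 j hj
      refine ⟨i, hi, ?_, h7⟩
      rw [if_pos hj, if_pos hi]
      exact h6

lemma fin_pos {n m : ℕ} {A B : Elt} (hn : 0 < n) (h : finP.le (r n A) (r m B)) :
    0 < m ∧ Set.range A.lb ⊆ Set.range B.lb ∧ A.seq (n - 1) = B.seq (m - 1) ∧
      ∀ j < n, ∃ i < m, A.seq j = B.seq i ∧ A.lb j = B.lb i := by
  rcases fin_iff.mp h with h | h
  · omega
  · exact h.2

lemma fin_zero {m : ℕ} {A B : Elt} (h : finP.le (r 0 A) (r m B)) : m = 0 := by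
  rcases fin_iff.mp h with h | h
  · exact h.2
  · omega

/-- the set of approximations below a given one is finite -/
lemma finite_below (b : AR) : {a : AR | finP.le a b}.Finite := by
  obtain ⟨b, m, B, rfl⟩ := b
  change {a : AR | finP.le a (r m B)}.Finite
  -- code of an approximation
  let T : Set Typ := insert (.inl 0) (insert B.typ ((fun i => (.inr (lab B.typ i) : Typ)) '' Set.Iio m))
  have hT : T.Finite := ((Set.finite_Iio m).image _).insert _ |>.insert _
  let V : Set (ℕ → ℕ) := (fun (g : Fin m → ℕ) (j : ℕ) => if h : j < m then g ⟨j, h⟩ else 0) ''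
    {g | ∀ i, g i ∈ Set.Iic (B.seq (m - 1))}
  have hV : V.Finite := by
    apply Set.Finite.image
    exact Set.Finite.pi' (fun i => Set.finite_Iic _)
  have hfin : (T ×ˢ ((Set.Iic m) ×ˢ V)).Finite := hT.prod ((Set.finite_Iic m).prod hV)
  refine Set.Finite.of_finite_image (f := Subtype.val) (hfin.subset ?_) Subtype.val_injective.injOn
  rintro _ ⟨⟨a, n, A, rfl⟩, ha, rfl⟩
  change finP.le (r n A) (r m B) at ha
  rcases Nat.eq_zero_or_pos n with hn | hn
  · subst hn
    refine ⟨?_, ?_, ?_⟩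
    · simp [rr, T]
    · simp [rr]
    · refine ⟨fun _ => 0, fun i => by simp, ?_⟩
      funext j
      simp [rr]
  · obtain ⟨hm, hr, hl, hc⟩ := fin_pos hn ha
    have hle : ∀ j < n, A.seq j ≤ B.seq (m - 1) := by
      intro j hj
      rw [← hl]
      exact A.mono.monotone (by omega)
    have hnm : n ≤ m := by
      choose! i hi h1 _ using hc
      have hinj : Set.InjOn i (Finset.range n : Set ℕ) := by
        intro x hx y hy hxy
        have hx' := h1 x (by simpa using hx)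
        have hy' := h1 y (by simpa using hy)
        rw [hxy, ← hy'] at hx'
        exact A.mono.injective hx'
      have := Finset.card_le_card_of_injOn (s := Finset.range n) (t := Finset.range m) i
        (by intro x hx; simpa using hi x (by simpa using hx)) hinj
      simpa using this
    refine ⟨?_, ?_, ?_⟩
    · simp only [rr, if_neg (Nat.pos_iff_ne_zero.mp hn)]
      rcases typ_below (t := A.typ) (t' := B.typ) hr with h | h
      · rw [h]; exact Or.inr (Or.inl rfl)
      · right; right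
        obtain ⟨i, hi, _, h2⟩ := hc 0 hn
        refine ⟨i, hi, ?_⟩
        rw [h]
        change (Sum.inr (B.lb i) : Typ) = Sum.inr (A.lb 0)
        rw [h2]
    · simpa [rr] using hnm
    · refine ⟨fun i => if (i : ℕ) < n then A.seq i else 0, ?_, ?_⟩
      · intro i
        by_cases hi : (i : ℕ) < n
        · simp only [hi, if_true]; exact hle _ hi
        · simp [hi]
      · funext j
        by_cases hj : j < m
        · simp [rr, hj]
        · have : ¬ j < n := by omega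
          simp [rr, hj, this]

lemma fin_cut {n m k : ℕ} {A B : Elt} (hk : 0 < k) (hkn : k ≤ n)
    (hr : Set.range A.lb ⊆ Set.range B.lb)
    (h : ∀ j < n, ∃ i < m, A.seq j = B.seq i ∧ A.lb j = B.lb i) :
    ∃ m' ≤ m, finP.le (r k A) (r m' B) := by
  obtain ⟨i, hi, h1, h2⟩ := h (k - 1) (by omega)
  refine ⟨i + 1, hi, fin_iff.mpr (Or.inr ⟨hk, Nat.succ_pos i, hr, ?_, ?_⟩)⟩
  · simpa using h1
  · intro j hj
    obtain ⟨l, hl, h3, h4⟩ := h j (by omega)
    refine ⟨l, ?_, h3, h4⟩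
    have : A.seq j ≤ A.seq (k - 1) := A.mono.monotone (by omega)
    rw [h3, h1] at this
    have := B.mono.le_iff_le.mp this
    omega

lemma le_iff_fin {A B : Elt} : le A B ↔ ∀ n, ∃ m, finP.le (r n A) (r m B) := by
  constructor
  · intro h n
    rcases Nat.eq_zero_or_pos n with hn | hn
    · exact ⟨0, fin_iff.mpr (Or.inl ⟨hn, rfl⟩)⟩
    · obtain ⟨i0, h0, _⟩ := h (n - 1)
      have h' : ∀ j < n, ∃ i < i0 + 1, A.seq j = B.seq i ∧ A.lb j = B.lb i := by
        intro j hj
        obtain ⟨i, h1, h2⟩ := h j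
        refine ⟨i, ?_, h1, h2⟩
        have : A.seq j ≤ A.seq (n - 1) := A.mono.monotone (by omega)
        rw [h1, h0] at this
        have := B.mono.le_iff_le.mp this
        omega
      obtain ⟨m, _, hm⟩ := fin_cut hn (le_refl n) (range_of_le h) h'
      exact ⟨m, hm⟩
  · intro h j
    obtain ⟨m, hm⟩ := h (j + 1)
    obtain ⟨_, _, _, hc⟩ := fin_pos (Nat.succ_pos j) hm
    obtain ⟨i, _, hi⟩ := hc j (Nat.lt_succ_self j)
    exact ⟨i, hi⟩

/-- if `a = r_k(C)` is below `B` with depth `n > 0` and `A ∈ [r_n(B), B]`, then `[a, A]` is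
nonempty -/
lemma exists_ext {k n : ℕ} {C0 B A : Elt} (hfin : finP.le (r k C0) (r n B))
    (hA : A ∈ basic ordP r (r n B) B) : ∃ C, le C A ∧ r k C = r k C0 := by
  obtain ⟨hAB, n', hn'⟩ := hA
  obtain ⟨rfl, htyp, hseq⟩ := r_eq_iff.mp hn'
  rcases Nat.eq_zero_or_pos k with hk | hk
  · subst hk
    exact ⟨A, ordP.le_refl A, r_eq_iff.mpr ⟨rfl, fun h => absurd h (lt_irrefl _),
      fun j hj => absurd hj (Nat.not_lt_zero j)⟩⟩
  · obtain ⟨hn, hr, hl, hc⟩ := fin_pos hk hfin
    have htyp := htyp hn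
    have hlb : A.lb = B.lb := by funext j; simp only [Elt.lb, htyp]
    obtain ⟨C, hC1, hC2, hC3⟩ := greedy C0.typ k C0.seq
      (fun j _ => C0.mono (Nat.lt_succ_self j)) (fun j => col A (C0.lb j)) (by
        intro j _
        apply col_infinite
        rw [hlb]
        exact hr ⟨j, rfl⟩)
    have hClb : C.lb = C0.lb := by funext j; simp only [Elt.lb, hC1]
    refine ⟨C, ?_, r_eq_iff.mpr ⟨rfl, fun _ => hC1, hC2⟩⟩
    intro j
    by_cases hj : j < k
    · obtain ⟨i, hi, h1, h2⟩ := hc j hj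
      exact ⟨i, by rw [hC2 j hj, h1, hseq i hi], by rw [hClb, hlb, h2]⟩
    · obtain ⟨i, h1, h2⟩ := hC3 j (not_lt.mp hj)
      exact ⟨i, h1.symm, by rw [hClb]; exact h2.symm⟩

/-- the amalgamation step: shrink the columns of `B` beyond `n` -/
lemma exists_shrink {n : ℕ} (B : Elt) (H : Lab → Set ℕ)
    (hH : ∀ κ ∈ Set.range B.lb, (H κ).Infinite) (hHB : ∀ κ, H κ ⊆ col B κ) :
    ∃ A, A ∈ basic ordP r (r n B) B ∧ A.typ = B.typ ∧ (∀ j < n, A.seq j = B.seq j) ∧
      ∀ j, n ≤ j → A.seq j ∈ H (B.lb j) := by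
  obtain ⟨A, hA1, hA2, hA3⟩ := greedy B.typ n B.seq (fun j _ => B.mono (Nat.lt_succ_self j))
    (fun j => H (B.lb j)) (fun j _ => hH _ ⟨j, rfl⟩)
  have hlb : A.lb = B.lb := by funext j; simp only [Elt.lb, hA1]
  refine ⟨A, ⟨?_, n, r_eq_iff.mpr ⟨rfl, fun _ => hA1, hA2⟩⟩, hA1, hA2, hA3⟩
  intro j
  by_cases hj : j < n
  · exact ⟨j, hA2 j hj, by rw [hlb]⟩
  · obtain ⟨i, h1, h2⟩ := hHB _ (hA3 j (not_lt.mp hj))
    exact ⟨i, h1.symm, by rw [hlb]; exact h2.symm⟩

/-- entries of `C` beyond `a = r_k(C)` are entries of `A` beyond the depth of `a` -/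
lemma beyond {k n : ℕ} {C C0 A B : Elt} (hk : 0 < k) (hfin : finP.le (r k C0) (r n B))
    (hC : r k C = r k C0) (hA : ∀ j < n, A.seq j = B.seq j) {j i : ℕ} (hj : k ≤ j)
    (h : C.seq j = A.seq i) : n ≤ i := by
  obtain ⟨hn, _, hl, _⟩ := fin_pos hk hfin
  have h1 : C.seq (k - 1) = C0.seq (k - 1) := (r_eq_iff.mp hC).2.2 _ (by omega)
  have h2 : A.seq (n - 1) = B.seq (n - 1) := hA _ (by omega)
  have h3 : C.seq (k - 1) < C.seq j := C.mono (by omega)
  rw [h1, hl, ← h2, h] at h3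
  have := A.mono.lt_iff_lt.mp h3
  omega

lemma axiom3_two (a : AR) (B : Elt) (n : ℕ) (hd : IsDepth finP r B a n) (A : Elt) (hAB : le A B)
    (hne : (basic ordP r a A).Nonempty) :
    ∃ A' ∈ basic ordP r (r n B) B, (basic ordP r a A').Nonempty ∧
      basic ordP r a A' ⊆ basic ordP r a A := by
  classical
  obtain ⟨D, hDA, k, rfl⟩ := hne
  have hDA : le D A := hDA
  have hfin := hd.1
  rcases Nat.eq_zero_or_pos k with hk | hk
  · subst hk
    have hn := fin_zero hfin
    subst hn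
    have h0 : ∀ X Y : Elt, r 0 X = r 0 Y := fun X Y => r_eq_iff.mpr ⟨rfl,
      fun h => absurd h (lt_irrefl _), fun j hj => absurd hj (Nat.not_lt_zero j)⟩
    exact ⟨A, ⟨hAB, 0, h0 _ _⟩, ⟨D, hDA, 0, rfl⟩, le_refl _⟩
  · obtain ⟨hn, hr, hl, hc⟩ := fin_pos hk hfin
    obtain ⟨A', hA'1, hA'2, hA'3, hA'4⟩ := exists_shrink (n := n) B
      (fun κ => if κ ∈ Set.range A.lb then col A κ else col B κ) (by
        intro κ hκ
        split_ifs with h
        · exact col_infinite A h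
        · exact col_infinite B hκ) (by
        intro κ
        split_ifs with h
        · exact le_iff_col.mp hAB κ
        · exact le_refl _)
    have hlb : A'.lb = B.lb := by funext j; simp only [Elt.lb, hA'2]
    refine ⟨A', hA'1, ?_, ?_⟩
    · obtain ⟨C, h1, h2⟩ := exists_ext hfin hA'1
      exact ⟨C, h1, k, h2⟩
    · rintro C ⟨hCA', k', hk'⟩
      have hCA' : le C A' := hCA'
      obtain ⟨rfl, htyp, hseq⟩ := r_eq_iff.mp hk'
      have hClb : C.lb = D.lb := by funext j; simp only [Elt.lb, htyp hk]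
      refine ⟨?_, k', hk'⟩
      intro j
      by_cases hj : j < k'
      · obtain ⟨i, h1, h2⟩ := hDA j
        exact ⟨i, by rw [hseq j hj, h1], by rw [hClb, h2]⟩
      · obtain ⟨i, h1, h2⟩ := hCA' j
        have hi := beyond hk hfin hk' hA'3 (not_lt.mp hj) h1
        have h3 := hA'4 i hi
        have h4 : B.lb i ∈ Set.range A.lb := by
          rw [← hlb, ← h2, hClb]
          exact range_of_le hDA ⟨j, rfl⟩
        rw [if_pos h4] at h3
        obtain ⟨l, h5, h6⟩ := h3
        exact ⟨l, by rw [h1, h5], by rw [h2, hlb, h6]⟩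

lemma axiom4 (a : AR) (B : Elt) (n : ℕ) (hd : IsDepth finP r B a n) (k : ℕ)
    (hka : ∃ C, r k C = a) (O : Set AR) :
    ∃ A ∈ basic ordP r (r n B) B,
      (∀ C ∈ basic ordP r a A, r (k + 1) C ∈ O) ∨
        (∀ C ∈ basic ordP r a A, r (k + 1) C ∉ O) := by
  classical
  obtain ⟨C0, rfl⟩ := hka
  have hfin := hd.1
  have split : ∀ (κ : Lab) (P : Set ℕ), κ ∈ Set.range B.lb →
      ∃ H ⊆ col B κ, H.Infinite ∧ ((∀ y ∈ H, y ∈ P) ∨ (∀ y ∈ H, y ∉ P)) := by
    intro κ P hκ
    have hinf := col_infinite B hκ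
    by_cases h : (col B κ ∩ P).Finite
    · refine ⟨col B κ \ P, Set.sdiff_subset, ?_, Or.inr fun y hy => hy.2⟩
      intro hfin
      apply hinf
      rw [← Set.inter_union_sdiff (col B κ) P]
      exact h.union hfin
    · exact ⟨col B κ ∩ P, Set.inter_subset_left, h, Or.inl fun y hy => hy.2⟩
  rcases Nat.eq_zero_or_pos k with hk | hk
  · subst hk
    have hn := fin_zero hfin
    subst hn
    have h0 : ∀ X Y : Elt, r 0 X = r 0 Y := fun X Y => r_eq_iff.mpr ⟨rfl,
      fun h => absurd h (lt_irrefl _), fun j hj => absurd hj (Nat.not_lt_zero j)⟩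
    obtain ⟨H, hHB, hH, hhom⟩ := split (B.lb 0)
      {y | ∃ C : Elt, C.typ = .inr (B.lb 0) ∧ C.seq 0 = y ∧ r 1 C ∈ O} ⟨0, rfl⟩
    obtain ⟨A, hA1, _, hA3⟩ := greedy (.inr (B.lb 0)) 0 (fun _ => 0) (by intro j hj; omega)
      (fun _ => H) (fun _ _ => hH)
    have hAlb : ∀ j, A.lb j = B.lb 0 := by intro j; simp only [Elt.lb, hA1, lab]
    have hkey : ∀ C : Elt, le C A → C.typ = .inr (B.lb 0) ∧ C.seq 0 ∈ H := by
      intro C hC
      constructor
      · apply typ_of_range_subset_singleton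
        intro j
        obtain ⟨i, _, hi⟩ := hC j
        rw [hAlb] at hi
        exact hi
      · obtain ⟨i, hi, _⟩ := hC 0
        rw [hi]
        exact hA3 i (Nat.zero_le _)
    refine ⟨A, ⟨?_, 0, h0 _ _⟩, ?_⟩
    · intro j
      obtain ⟨i, h1, h2⟩ := hHB (hA3 j (Nat.zero_le _))
      exact ⟨i, h1.symm, by rw [hAlb, h2]⟩
    · rcases hhom with hhom | hhom
      · left
        rintro C ⟨hCA, -⟩
        obtain ⟨h1, h2⟩ := hkey C hCA
        obtain ⟨C', h3, h4, h5⟩ := hhom _ h2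
        have : r (0 + 1) C = r 1 C' := by
          refine r_eq_iff.mpr ⟨rfl, fun _ => by rw [h1, h3], ?_⟩
          intro j hj
          obtain rfl : j = 0 := by omega
          exact h4.symm
        rw [this]; exact h5
      · right
        rintro C ⟨hCA, -⟩ hO
        obtain ⟨h1, h2⟩ := hkey C hCA
        exact hhom _ h2 ⟨C, h1, rfl, hO⟩
  · obtain ⟨hn, hr, hl, hc⟩ := fin_pos hk hfin
    obtain ⟨H, hHB, hH, hhom⟩ := split (C0.lb k)
      {y | ∃ C : Elt, r k C = r k C0 ∧ C.seq k = y ∧ r (k + 1) C ∈ O} (hr ⟨k, rfl⟩)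
    obtain ⟨A, hA1, hA2, hA3, hA4⟩ := exists_shrink (n := n) B
      (fun κ => if κ = C0.lb k then H else col B κ) (by
        intro κ hκ
        split_ifs with h
        · exact hH
        · exact col_infinite B hκ) (by
        intro κ
        split_ifs with h
        · rw [h]; exact hHB
        · exact le_refl _)
    have hlb : A.lb = B.lb := by funext j; simp only [Elt.lb, hA2]
    have hkey : ∀ C : Elt, le C A → r k C = r k C0 → C.seq k ∈ H := by
      intro C hCA hC
      obtain ⟨_, htyp, hseq⟩ := r_eq_iff.mp hC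
      have hClb : C.lb = C0.lb := by funext j; simp only [Elt.lb, htyp hk]
      obtain ⟨i, h1, h2⟩ := hCA k
      have hi := beyond hk hfin hC hA3 (le_refl k) h1
      have h3 := hA4 i hi
      have h4 : B.lb i = C0.lb k := by rw [← hlb, ← h2, hClb]
      rw [if_pos h4] at h3
      rw [h1]; exact h3
    refine ⟨A, hA1, ?_⟩
    rcases hhom with hhom | hhom
    · left
      rintro C ⟨hCA, k', hk'⟩
      obtain ⟨rfl, _, _⟩ := r_eq_iff.mp hk'
      obtain ⟨C', h3, h4, h5⟩ := hhom _ (hkey C hCA hk')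
      have : r (k' + 1) C = r (k' + 1) C' := by
        obtain ⟨_, ht, hs⟩ := r_eq_iff.mp (hk'.trans h3.symm)
        refine r_eq_iff.mpr ⟨rfl, fun _ => ht hk, ?_⟩
        intro j hj
        by_cases hj' : j < k'
        · exact hs j hj'
        · obtain rfl : j = k' := by omega
          exact h4.symm
      rw [this]; exact h5
    · right
      rintro C ⟨hCA, k', hk'⟩ hO
      obtain ⟨rfl, _, _⟩ := r_eq_iff.mp hk'
      exact hhom _ (hkey C hCA hk') ⟨C, hk', rfl, hO⟩

lemma closed_range : @IsClosed (ℕ → AR) (@Pi.topologicalSpace ℕ (fun _ => AR) (fun _ => ⊥))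
    (Set.range fun A n => r n A) := by
  let _ : TopologicalSpace AR := ⊥
  have _ : DiscreteTopology AR := ⟨rfl⟩
  change IsClosed (Set.range fun (A : Elt) (n : ℕ) => r n A)
  apply isClosed_of_closure_subset
  intro f hf
  rw [mem_closure_iff] at hf
  have hagree : ∀ n, ∃ A : Elt, ∀ k < n, r k A = f k := by
    intro n
    obtain ⟨g, hg, A, rfl⟩ := hf (PiNat.cylinder f n) (PiNat.isOpen_cylinder _ f n)
      (PiNat.self_mem_cylinder f n)
    exact ⟨A, fun k hk => PiNat.mem_cylinder_iff.mp hg k hk⟩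
  choose A hA using hagree
  -- `r k (A n) = f k` for `k < n`
  have htyp : ∀ n, 2 ≤ n → (A n).typ = (A 2).typ := by
    intro n hn
    have h1 := hA n 1 (by omega)
    have h2 := hA 2 1 (by omega)
    exact (r_eq_iff.mp (h1.trans h2.symm)).2.1 Nat.one_pos
  have hseq : ∀ j n, j + 2 ≤ n → (A n).seq j = (A (j + 2)).seq j := by
    intro j n hn
    have h1 := hA n (j + 1) (by omega)
    have h2 := hA (j + 2) (j + 1) (by omega)
    exact (r_eq_iff.mp (h1.trans h2.symm)).2.2 j (by omega)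
  refine ⟨⟨(A 2).typ, fun j => (A (j + 2)).seq j, ?_⟩, ?_⟩
  · apply strictMono_nat_of_lt_succ
    intro j
    rw [← hseq j (j + 1 + 2) (by omega)]
    exact (A _).mono (Nat.lt_succ_self j)
  · funext n
    have h1 := hA (n + 2) n (by omega)
    change r n _ = f n
    rw [← h1]
    refine r_eq_iff.mpr ⟨rfl, ?_, ?_⟩
    · intro _
      exact (htyp (n + 2) (by omega)).symm
    · intro j hj
      exact (hseq j (n + 2) (by omega)).symm

/-- the topological Ramsey space -/
def space : TopRamseySpace Elt where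
  nonempty := ⟨⟨.inl 0, id, strictMono_id⟩⟩
  ord := ordP
  AR := AR
  r := r
  r_surj a := by
    obtain ⟨a, n, A, rfl⟩ := a
    exact ⟨n, A, rfl⟩
  A1_zero A B := r_eq_iff.mpr ⟨rfl, fun h => absurd h (lt_irrefl _),
      fun j hj => absurd hj (Nat.not_lt_zero j)⟩
  A1_inj A B h := by
    by_contra hcon
    push Not at hcon
    apply h
    have h1 := r_eq_iff.mp (hcon 1)
    refine Elt.ext (h1.2.1 Nat.one_pos) ?_
    funext j
    exact (r_eq_iff.mp (hcon (j + 1))).2.2 j (Nat.lt_succ_self j)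
  A1_eq n m A B h := by
    obtain ⟨rfl, h1, h2⟩ := r_eq_iff.mp h
    refine ⟨rfl, fun k hk => r_eq_iff.mpr ⟨rfl, fun _ => h1 (by omega), fun j hj => h2 j (by omega)⟩⟩
  fin := finP
  A2_finite := finite_below
  A2_iff A B := le_iff_fin
  A2_init := by
    rintro a b ⟨c, m, B, rfl⟩ ⟨A, k, n, hkn, rfl, rfl⟩ hbc
    change finP.le (r n A) (r m B) at hbc
    change ∃ d, Init r d (r m B) ∧ _
    rcases Nat.eq_zero_or_pos k with hk | hk
    · subst hk
      exact ⟨r 0 B, ⟨B, 0, m, Nat.zero_le _, rfl, rfl⟩, fin_iff.mpr (Or.inl ⟨rfl, rfl⟩)⟩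
    · obtain ⟨_, hr, _, hc⟩ := fin_pos (by omega : 0 < n) hbc
      obtain ⟨m', hm', h⟩ := fin_cut hk hkn hr hc
      exact ⟨r m' B, ⟨B, m', m, hm', rfl, rfl⟩, h⟩
  A3_one := by
    rintro ⟨a, k, C0, rfl⟩ B n hd A hA
    obtain ⟨C, h1, h2⟩ := exists_ext (k := k) (C0 := C0) hd.1 hA
    exact ⟨C, h1, k, h2⟩
  A3_two := axiom3_two
  A4 := axiom4
  closed := closed_range

/-! ## The order `≤*` -/

lemma leStar_of_le {A B : Elt} (h : le A B) : leStar A B := by
  intro κ
  rw [Set.sdiff_eq_empty.mpr (le_iff_col.mp h κ)]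
  exact Set.finite_empty

/-- the column element with column `κ` enumerating a subset of the infinite set `C` -/
lemma exists_colElt (κ : Lab) (C : ℕ → Set ℕ) (hC : ∀ j, (C j).Infinite) :
    ∃ A : Elt, A.typ = .inr κ ∧ ∀ j, A.seq j ∈ C j := by
  obtain ⟨A, h1, _, h3⟩ := greedy (.inr κ) 0 (fun _ => 0) (by intro j hj; omega) C
    (fun j _ => hC j)
  exact ⟨A, h1, fun j => h3 j (Nat.zero_le _)⟩

lemma lb_colElt {A : Elt} {κ : Lab} (h : A.typ = .inr κ) (j : ℕ) : A.lb j = κ := by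
  simp only [Elt.lb, h, lab]

lemma col_colElt_ne {A : Elt} {κ κ' : Lab} (h : A.typ = .inr κ) (hκ : κ' ≠ κ) :
    col A κ' = ∅ := by
  rw [Set.eq_empty_iff_forall_notMem]
  rintro x ⟨j, _, hj⟩
  rw [lb_colElt h] at hj
  exact hκ hj.symm

lemma col_colElt {A : Elt} {κ : Lab} (h : A.typ = .inr κ) : col A κ = Set.range A.seq := by
  ext x
  constructor
  · rintro ⟨j, hj, _⟩; exact ⟨j, hj⟩
  · rintro ⟨j, hj⟩; exact ⟨j, hj, lb_colElt h j⟩

lemma leStar_colElt {A B : Elt} {κ : Lab} (h : A.typ = .inr κ) :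
    leStar A B ↔ (Set.range A.seq \ col B κ).Finite := by
  constructor
  · intro hs
    have := hs κ
    rwa [col_colElt h] at this
  · intro hs κ'
    by_cases hκ : κ' = κ
    · subst hκ; rw [col_colElt h]; exact hs
    · rw [col_colElt_ne h hκ]; simp

lemma le_colElt {A B : Elt} {κ : Lab} (h : A.typ = .inr κ) :
    le A B ↔ Set.range A.seq ⊆ col B κ := by
  rw [le_iff_col]
  constructor
  · intro hs
    have := hs κ
    rwa [col_colElt h] at this
  · intro hs κ'
    by_cases hκ : κ' = κ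
    · subst hκ; rw [col_colElt h]; exact hs
    · rw [col_colElt_ne h hκ]; simp

/-- if `Z ≤* X` then some `Z' ≤ Z` satisfies `Z' ≤ X` -/
lemma exists_le_of_leStar {Z X : Elt} (h : leStar Z X) : ∃ Z', le Z' Z ∧ le Z' X := by
  have hinf := col_inter_infinite h (κ := Z.lb 0) ⟨0, rfl⟩
  obtain ⟨A, h1, h2⟩ := exists_colElt (Z.lb 0) (fun _ => col Z (Z.lb 0) ∩ col X (Z.lb 0))
    (fun _ => hinf)
  refine ⟨A, (le_colElt h1).mpr ?_, (le_colElt h1).mpr ?_⟩
  · rintro _ ⟨j, rfl⟩; exact (h2 j).1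
  · rintro _ ⟨j, rfl⟩; exact (h2 j).2

lemma compat_iff {A B : Elt} : Compat ordP A B ↔ Compat starP A B := by
  constructor
  · rintro ⟨C, h1, h2⟩
    exact ⟨C, leStar_of_le h1, leStar_of_le h2⟩
  · rintro ⟨C, h1, h2⟩
    obtain ⟨D, h3, h4⟩ := exists_le_of_leStar h1
    have h5 : leStar D B := starP.le_trans _ _ _ (leStar_of_le h3) h2
    obtain ⟨E, h6, h7⟩ := exists_le_of_leStar h5
    exact ⟨E, ordP.le_trans _ _ _ h6 h4, h7⟩

lemma sep_le_eq (A B : Elt) : (sep ordP).le A B ↔ (sep starP).le A B := by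
  constructor
  · intro h C hC
    obtain ⟨D, h1, h2⟩ := exists_le_of_leStar hC
    obtain ⟨E, h3, h4⟩ := h D h2
    exact ⟨E, leStar_of_le (ordP.le_trans _ _ _ h3 h1), leStar_of_le h4⟩
  · intro h C hC
    exact compat_iff.mpr (h C (leStar_of_le hC))

lemma sep_eq : sep ordP = sep starP := by
  apply Preorder.ext
  intro A B
  exact sep_le_eq A B

lemma sepIso' : Nonempty (SepQuotient ordP ≃o SepQuotient starP) := by
  have : ∀ X Y : Preorder Elt, X = Y → Nonempty
      (@OrderIso (@Antisymmetrization Elt X.le (@instIsPreorderLe Elt X))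
        (@Antisymmetrization Elt Y.le (@instIsPreorderLe Elt Y))
        (@instPartialOrderAntisymmetrization Elt X).toLE
        (@instPartialOrderAntisymmetrization Elt Y).toLE) := by
    rintro X _ rfl
    exact ⟨@OrderIso.refl _ (@instPartialOrderAntisymmetrization Elt X).toLE⟩
  exact this _ _ sep_eq

/-- a label common to all members of a nonempty linearly ordered family -/
lemma common_label (F : Set Elt) (hF : F.Nonempty)
    (hlin : ∀ A ∈ F, ∀ B ∈ F, leStar A B ∨ leStar B A) :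
    ∃ κ, ∀ A ∈ F, κ ∈ Set.range A.lb := by
  by_cases h : ∃ A ∈ F, ∃ κ, A.typ = .inr κ
  · obtain ⟨A, hA, κ, hκ⟩ := h
    refine ⟨κ, fun B hB => ?_⟩
    rcases hlin A hA B hB with h1 | h1
    · exact range_of_leStar h1 ⟨0, lb_colElt hκ 0⟩
    · obtain ⟨j, hj⟩ := range_of_leStar h1 ⟨0, rfl⟩
      rw [lb_colElt hκ] at hj
      exact ⟨0, hj.symm⟩
  · push Not at h
    have hfull : ∀ A ∈ F, ∃ n, A.typ = .inl n := by
      intro A hA
      rcases htyp : A.typ with n | κ
      · exact ⟨n, rfl⟩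
      · exact absurd htyp (h A hA κ)
    obtain ⟨A, hA⟩ := hF
    obtain ⟨n, hn⟩ := hfull A hA
    have hkey : ∀ X Y : Elt, ∀ a b, X.typ = .inl a → Y.typ = .inl b → leStar X Y → a = b := by
      intro X Y a b hX hY hXY
      have h1 : (Sum.inl a : Lab) ∈ Set.range Y.lb := by
        apply range_of_leStar hXY
        refine ⟨0, ?_⟩
        simp only [Elt.lb, hX]
        exact lab_priv a
      have h2 : Y.lb = lab (.inl b) := by funext j; simp only [Elt.lb, hY]
      rw [h2] at h1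
      rcases mem_range_lab_inl h1 with h3 | ⟨m, _, h3⟩
      · cases h3; rfl
      · cases h3
    refine ⟨.inl n, fun B hB => ?_⟩
    obtain ⟨n', hn'⟩ := hfull B hB
    have : n = n' := by
      rcases hlin A hA B hB with h1 | h1
      · exact hkey A B n n' hn hn' h1
      · exact (hkey B A n' n hn' hn h1).symm
    subst this
    refine ⟨0, ?_⟩
    simp only [Elt.lb, hn']
    exact lab_priv n

/-- a countable family of infinite sets linearly ordered by `⊆*` has an infinite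
pseudointersection -/
lemma countable_chain (C : ℕ → Set ℕ) (hC : ∀ n, (C n).Infinite)
    (hlin : ∀ n m, (C n \ C m).Finite ∨ (C m \ C n).Finite) :
    ∃ Y : Set ℕ, Y.Infinite ∧ ∀ n, (Y \ C n).Finite := by
  -- a least member among the first ones
  have hmin : ∀ n, ∃ i, ∀ j ≤ n, (C i \ C j).Finite := by
    intro n
    induction n with
    | zero => exact ⟨0, fun j hj => by obtain rfl : j = 0 := by omega
                                       simp⟩
    | succ n ih =>
      obtain ⟨i, hi⟩ := ih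
      rcases hlin i (n + 1) with h | h
      · refine ⟨i, fun j hj => ?_⟩
        rcases Nat.lt_or_ge n j with h' | h'
        · obtain rfl : j = n + 1 := by omega
          exact h
        · exact hi j h'
      · refine ⟨n + 1, fun j hj => ?_⟩
        rcases Nat.lt_or_ge n j with h' | h'
        · obtain rfl : j = n + 1 := by omega
          simp
        · refine (h.union (hi j h')).subset ?_
          rintro x ⟨hx, hx'⟩
          by_cases hxi : x ∈ C i
          · exact Or.inr ⟨hxi, hx'⟩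
          · exact Or.inl ⟨hx, hxi⟩
  have hinter : ∀ n, (⋂ j ≤ n, C j).Infinite := by
    intro n
    obtain ⟨i, hi⟩ := hmin n
    intro hfin
    apply hC i
    have hbad : (⋃ j ∈ Set.Iic n, C i \ C j).Finite :=
      (Set.finite_Iic n).biUnion (fun j hj => hi j hj)
    refine (hbad.union hfin).subset ?_
    intro x hx
    by_cases h : ∀ j ≤ n, x ∈ C j
    · right; simpa using h
    · left
      push Not at h
      obtain ⟨j, hj, hxj⟩ := h
      simp only [Set.mem_iUnion]
      exact ⟨j, hj, hx, hxj⟩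
  obtain ⟨A, _, hA⟩ := exists_colElt (.inl 0) (fun n => ⋂ j ≤ n, C j) hinter
  refine ⟨Set.range A.seq, Set.infinite_range_of_injective A.mono.injective, fun n => ?_⟩
  refine ((Set.finite_Iio n).image A.seq).subset ?_
  rintro _ ⟨⟨j, rfl⟩, hx⟩
  refine ⟨j, ?_, rfl⟩
  by_contra hj
  simp only [Set.mem_Iio, not_lt] at hj
  apply hx
  have := hA j
  simp only [Set.mem_iInter] at this
  exact this n hj

/-- pseudointersections of families with a common label -/
lemma pseudo_of_sets {F : Set Elt} {κ : Lab} {Y : Set ℕ} (hY : Y.Infinite)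
    (h : ∀ A ∈ F, (Y \ col A κ).Finite) : ∃ Z, ∀ A ∈ F, leStar Z A := by
  obtain ⟨Z, h1, h2⟩ := exists_colElt κ (fun _ => Y) (fun _ => hY)
  refine ⟨Z, fun A hA => (leStar_colElt h1).mpr ((h A hA).subset ?_)⟩
  rintro _ ⟨⟨j, rfl⟩, hx⟩
  exact ⟨h2 j, hx⟩

lemma diff_col_finite {A B : Elt} (κ : Lab) (h : leStar A B ∨ leStar B A) :
    (col A κ \ col B κ).Finite ∨ (col B κ \ col A κ).Finite := by
  rcases h with h | h
  · exact Or.inl (h κ)
  · exact Or.inr (h κ)

/-- the `σ`-closed topological Ramsey space -/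
def sspace : SigmaClosedTRS Elt where
  toTopRamseySpace := space
  star := starP
  coarsens A B h := leStar_of_le h
  sigma_closed f hf := by
    have hanti : ∀ n m, n ≤ m → leStar (f m) (f n) := by
      intro n m hnm
      induction hnm with
      | refl => exact starP.le_refl _
      | step _ ih => exact starP.le_trans _ _ _ (hf _) ih
    have hlin : ∀ n m, leStar (f n) (f m) ∨ leStar (f m) (f n) := by
      intro n m
      rcases le_total n m with h | h
      · exact Or.inr (hanti n m h)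
      · exact Or.inl (hanti m n h)
    obtain ⟨κ, hκ⟩ := common_label (Set.range f) ⟨f 0, 0, rfl⟩ (by
      rintro _ ⟨n, rfl⟩ _ ⟨m, rfl⟩
      exact hlin n m)
    obtain ⟨Y, hY, hY'⟩ := countable_chain (fun n => col (f n) κ)
      (fun n => col_infinite _ (hκ _ ⟨n, rfl⟩)) (fun n m => diff_col_finite κ (hlin n m))
    obtain ⟨Z, hZ⟩ := pseudo_of_sets (F := Set.range f) hY (by
      rintro _ ⟨n, rfl⟩
      exact hY' n)
    exact ⟨Z, fun n => hZ _ ⟨n, rfl⟩⟩
  sepIso := sepIso'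

/-! ## Separativity -/

lemma incompat {A B : Elt} {κ : Lab} (h : A.typ = .inr κ)
    (hd : ∀ x ∈ Set.range A.seq, x ∉ col B κ) : ¬ Compat starP A B := by
  rintro ⟨D, h1, h2⟩
  have h1 : leStar D A := h1
  have h2 : leStar D B := h2
  have hκ : κ ∈ Set.range D.lb := by
    obtain ⟨j, hj⟩ := range_of_leStar h1 ⟨0, rfl⟩
    rw [lb_colElt h] at hj
    exact ⟨0, hj.symm⟩
  apply col_infinite D hκ
  refine ((h1 κ).union (h2 κ)).subset ?_
  intro x hx
  by_cases hB : x ∈ col B κ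
  · left
    refine ⟨hx, fun hA => ?_⟩
    rw [col_colElt h] at hA
    exact hd x hA hB
  · exact Or.inr ⟨hx, hB⟩

/-- `≤*` is separative -/
lemma separative (A B : Elt) (h : ¬ leStar A B) : ∃ C, leStar C A ∧ ¬ Compat starP C B := by
  unfold leStar at h
  push Not at h
  obtain ⟨κ, hκ⟩ := h
  obtain ⟨C, h1, h2⟩ := exists_colElt κ (fun _ => col A κ \ col B κ) (fun _ => hκ)
  refine ⟨C, leStar_of_le ((le_colElt h1).mpr ?_), incompat h1 ?_⟩
  · rintro _ ⟨j, rfl⟩; exact (h2 j).1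
  · rintro _ ⟨j, rfl⟩; exact (h2 j).2

/-- splitting an infinite set -/
lemma split_infinite {X : Set ℕ} (hX : X.Infinite) :
    ∃ Y Z : Set ℕ, Y ⊆ X ∧ Z ⊆ X ∧ Y.Infinite ∧ Z.Infinite ∧ ∀ x ∈ Y, x ∉ Z := by
  obtain ⟨A, _, hA⟩ := exists_colElt (.inl 0) (fun _ => X) (fun _ => hX)
  refine ⟨Set.range fun n => A.seq (2 * n), Set.range fun n => A.seq (2 * n + 1), ?_, ?_, ?_, ?_, ?_⟩
  · rintro _ ⟨n, rfl⟩; exact hA _
  · rintro _ ⟨n, rfl⟩; exact hA _
  · apply Set.infinite_range_of_injective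
    intro n m h
    have := A.mono.injective h
    omega
  · apply Set.infinite_range_of_injective
    intro n m h
    have := A.mono.injective h
    omega
  · rintro _ ⟨n, rfl⟩ ⟨m, hm⟩
    have := A.mono.injective hm
    omega

/-- `≤*` is atomless -/
lemma atomless (A : Elt) : ∃ B C, leStar B A ∧ leStar C A ∧ ¬ Compat starP B C := by
  obtain ⟨Y, Z, hY, hZ, hY', hZ', hd⟩ := split_infinite (col_infinite A (κ := A.lb 0) ⟨0, rfl⟩)
  obtain ⟨B, h1, h2⟩ := exists_colElt (A.lb 0) (fun _ => Y) (fun _ => hY')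
  obtain ⟨C, h3, h4⟩ := exists_colElt (A.lb 0) (fun _ => Z) (fun _ => hZ')
  refine ⟨B, C, leStar_of_le ((le_colElt h1).mpr ?_), leStar_of_le ((le_colElt h3).mpr ?_),
    incompat h1 ?_⟩
  · rintro _ ⟨j, rfl⟩; exact hY (h2 j)
  · rintro _ ⟨j, rfl⟩; exact hZ (h4 j)
  · rintro _ ⟨j, rfl⟩ hx
    rw [col_colElt h3] at hx
    obtain ⟨i, hi⟩ := hx
    exact hd _ (h2 j) (hi ▸ h4 i)

/-! ## The cardinal `𝔭_R` -/

/-- the elements `X_n` -/
def Xn (n : ℕ) : Elt := ⟨.inl n, id, strictMono_id⟩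

lemma Xn_injective : Function.Injective Xn := by
  intro n m h
  have := congrArg Elt.typ h
  simpa [Xn] using this

lemma Xn_pfamily : sspace.PFamily (Set.range Xn) := by
  constructor
  · intro G hG hfin
    -- an upper bound for the indices
    have hbound : ∃ N, ∀ A ∈ G, ∃ n < N, A = Xn n := by
      have hpre : (Xn ⁻¹' G).Finite := hfin.preimage Xn_injective.injOn
      obtain ⟨N, hN⟩ := hpre.bddAbove
      refine ⟨N + 1, fun A hA => ?_⟩
      obtain ⟨n, rfl⟩ := hG hA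
      exact ⟨n, Nat.lt_succ_of_le (hN hA), rfl⟩
    obtain ⟨N, hN⟩ := hbound
    have hinf : {x : ℕ | (Nat.unpair x).1 = N}.Infinite := by
      rw [Set.infinite_iff_exists_gt]
      intro b
      refine ⟨Nat.pair N (b + 1), by simp, ?_⟩
      exact lt_of_lt_of_le (Nat.lt_succ_self b) (Nat.right_le_pair _ _)
    obtain ⟨Y, h1, h2⟩ := exists_colElt (.inr N) (fun _ => {x : ℕ | (Nat.unpair x).1 = N})
      (fun _ => hinf)
    refine ⟨Y, fun A hA => ?_⟩
    obtain ⟨n, hn, rfl⟩ := hN A hA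
    refine leStar_of_le ((le_colElt h1).mpr ?_)
    rintro _ ⟨j, rfl⟩
    refine ⟨Y.seq j, rfl, ?_⟩
    have h3 : (Nat.unpair (Y.seq j)).1 = N := h2 j
    simp only [Elt.lb, Xn, lab, h3]
    rw [if_neg (by omega)]
  · rintro ⟨Y, hY⟩
    have hkey : ∀ n, Y.lb 0 ∈ Set.range (lab (.inl n)) := by
      intro n
      have h1 : leStar Y (Xn n) := hY _ ⟨n, rfl⟩
      exact range_of_leStar h1 ⟨0, rfl⟩
    rcases hκ : Y.lb 0 with a | m
    · have := hkey (a + 1)
      rw [hκ] at this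
      rcases mem_range_lab_inl this with h | ⟨m, _, h⟩
      · simp only [Sum.inl.injEq] at h; omega
      · cases h
    · have := hkey m
      rw [hκ] at this
      rcases mem_range_lab_inl this with h | ⟨m', hm', h⟩
      · cases h
      · simp only [Sum.inr.injEq] at h; omega

lemma pNumber_eq : sspace.pNumber = ℵ₀ := by
  apply le_antisymm
  · apply csInf_le'
    refine ⟨Set.range Xn, Xn_pfamily, ?_⟩
    rw [mk_range_eq _ Xn_injective, mk_nat]
  · apply le_csInf
    · exact ⟨_, Set.range Xn, Xn_pfamily, rfl⟩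
    · rintro _ ⟨F, ⟨hF1, hF2⟩, rfl⟩
      rw [aleph0_le_mk_iff, Set.infinite_coe_iff]
      intro hfin
      exact hF2 (hF1 F (le_refl _) hfin)

/-! ## The cardinal `𝔱_R` -/

lemma exists_classicalTower : ∃ T, ClassicalTower T := by
  let rel : {C : Set ℕ // C.Infinite} → {C : Set ℕ // C.Infinite} → Prop :=
    fun C D => (C.1 \ D.1).Finite
  obtain ⟨hchain, hmax⟩ := maxChain_spec (r := rel)
  refine ⟨Subtype.val '' maxChain rel, ?_, ?_, ?_⟩
  · rintro _ ⟨C, _, rfl⟩; exact C.2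
  · rintro _ ⟨C, hC, rfl⟩ _ ⟨D, hD, rfl⟩
    by_cases h : C = D
    · subst h; left; simp
    · exact hchain hC hD h
  · rintro ⟨Y, hY, hYT⟩
    obtain ⟨Y0, Y1, h0, h1, h0', h1', hd⟩ := split_infinite hY
    have hins : IsChain rel (insert ⟨Y0, h0'⟩ (maxChain rel)) := by
      apply hchain.insert
      intro C hC _
      left
      refine (hYT C.1 ⟨C, hC, rfl⟩).subset ?_
      rintro x ⟨hx, hx'⟩
      exact ⟨h0 hx, hx'⟩
    have hmem : (⟨Y0, h0'⟩ : {C : Set ℕ // C.Infinite}) ∈ maxChain rel := by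
      have := hmax hins (Set.subset_insert _ _)
      rw [this]
      exact Set.mem_insert _ _
    have hfin : (Y \ Y0).Finite := hYT Y0 ⟨_, hmem, rfl⟩
    apply h1'
    refine hfin.subset ?_
    intro x hx
    exact ⟨h1 hx, fun hx' => hd x hx' hx⟩

lemma aleph_one_le_classical (T : Set (Set ℕ)) (hT : ClassicalTower T) : ℵ₁ ≤ #T := by
  rw [aleph_one_le_iff]
  by_contra hcon
  rw [not_lt] at hcon
  have hcount : T.Countable := Cardinal.le_aleph0_iff_set_countable.mp hcon
  obtain ⟨h1, h2, h3⟩ := hT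
  have hne : T.Nonempty := by
    by_contra h
    rw [Set.not_nonempty_iff_eq_empty] at h
    apply h3
    refine ⟨Set.univ, Set.infinite_univ, ?_⟩
    intro C hC
    rw [h] at hC
    exact absurd hC (Set.notMem_empty _)
  obtain ⟨f, rfl⟩ := hcount.exists_eq_range hne
  apply h3
  obtain ⟨Y, hY, hY'⟩ := countable_chain f (fun n => h1 _ ⟨n, rfl⟩)
    (fun n m => h2 _ ⟨n, rfl⟩ _ ⟨m, rfl⟩)
  exact ⟨Y, hY, by rintro _ ⟨n, rfl⟩; exact hY' n⟩

/-- a tower of the space gives a classical tower of at most the same size -/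
lemma classical_of_tower (F : Set Elt) (hF : sspace.IsTower F) :
    ∃ T, ClassicalTower T ∧ #T ≤ #F := by
  obtain ⟨hlin, hno⟩ := hF
  have hne : F.Nonempty := by
    by_contra h
    rw [Set.not_nonempty_iff_eq_empty] at h
    apply hno
    refine ⟨Xn 0, ?_⟩
    intro X hX
    rw [h] at hX
    exact absurd hX (Set.notMem_empty _)
  obtain ⟨κ, hκ⟩ := common_label F hne hlin
  refine ⟨(fun A => col A κ) '' F, ⟨?_, ?_, ?_⟩, mk_image_le⟩
  · rintro _ ⟨A, hA, rfl⟩; exact col_infinite A (hκ A hA)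
  · rintro _ ⟨A, hA, rfl⟩ _ ⟨B, hB, rfl⟩
    exact diff_col_finite κ (hlin A hA B hB)
  · rintro ⟨Y, hY, hY'⟩
    exact hno (pseudo_of_sets hY (fun A hA => hY' _ ⟨A, hA, rfl⟩))

/-- a classical tower gives a tower of the space of at most the same size -/
lemma tower_of_classical (T : Set (Set ℕ)) (hT : ClassicalTower T) :
    ∃ F, sspace.IsTower F ∧ #F ≤ #T := by
  classical
  obtain ⟨h1, h2, h3⟩ := hT
  -- the column element in column `inl 0` enumerating `C`
  let E : Set ℕ → Elt := fun C => if hC : C.Infinite then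
    ⟨.inr (.inl 0), Nat.nth (· ∈ C), Nat.nth_strictMono hC⟩ else Xn 0
  have hE : ∀ C ∈ T, (E C).typ = .inr (.inl 0) ∧ Set.range (E C).seq = C := by
    intro C hC
    have hE' : E C = ⟨.inr (.inl 0), Nat.nth (· ∈ C), Nat.nth_strictMono (h1 C hC)⟩ :=
      dif_pos (h1 C hC)
    rw [hE']
    refine ⟨rfl, ?_⟩
    exact Nat.range_nth_of_infinite (h1 C hC)
  have hcol : ∀ C ∈ T, col (E C) (.inl 0) = C := by
    intro C hC
    rw [col_colElt (hE C hC).1, (hE C hC).2]
  refine ⟨E '' T, ⟨?_, ?_⟩, mk_image_le⟩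
  · rintro _ ⟨C, hC, rfl⟩ _ ⟨D, hD, rfl⟩
    change leStar (E C) (E D) ∨ leStar (E D) (E C)
    rw [leStar_colElt (hE C hC).1, leStar_colElt (hE D hD).1, (hE C hC).2, (hE D hD).2,
      hcol C hC, hcol D hD]
    exact h2 C hC D hD
  · rintro ⟨Y, hY⟩
    have hne : T.Nonempty := by
      by_contra h
      rw [Set.not_nonempty_iff_eq_empty] at h
      apply h3
      refine ⟨Set.univ, Set.infinite_univ, ?_⟩
      intro C hC
      rw [h] at hC
      exact absurd hC (Set.notMem_empty _)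
    obtain ⟨C0, hC0⟩ := hne
    have hY' : ∀ C ∈ T, leStar Y (E C) := fun C hC => hY _ ⟨C, hC, rfl⟩
    have hκ : (Sum.inl 0 : Lab) ∈ Set.range Y.lb := by
      obtain ⟨j, hj⟩ := range_of_leStar (hY' C0 hC0) ⟨0, rfl⟩
      rw [lb_colElt (hE C0 hC0).1] at hj
      exact ⟨0, hj.symm⟩
    apply h3
    refine ⟨col Y (.inl 0), col_infinite Y hκ, fun C hC => ?_⟩
    have := hY' C hC (.inl 0)
    rwa [hcol C hC] at this

lemma exists_tower : ∃ F, sspace.IsTower F := by
  obtain ⟨T, hT⟩ := exists_classicalTower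
  obtain ⟨F, hF, _⟩ := tower_of_classical T hT
  exact ⟨F, hF⟩

lemma tNumber_eq : sspace.tNumber = classicalT := by
  unfold SigmaClosedTRS.tNumber classicalT
  apply le_antisymm
  · obtain ⟨T, hT⟩ := exists_classicalTower
    refine le_csInf ⟨#T, T, hT, rfl⟩ ?_
    rintro _ ⟨T, hT, rfl⟩
    obtain ⟨F, hF, hle⟩ := tower_of_classical T hT
    refine le_trans (csInf_le' ?_) hle
    exact ⟨F, hF, rfl⟩
  · obtain ⟨F, hF⟩ := exists_tower
    refine le_csInf ⟨#F, F, hF, rfl⟩ ?_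
    rintro _ ⟨F, hF, rfl⟩
    obtain ⟨T, hT, hle⟩ := classical_of_tower F hF
    refine le_trans (csInf_le' ?_) hle
    exact ⟨T, hT, rfl⟩

lemma aleph_one_le_classicalT : ℵ₁ ≤ classicalT := by
  obtain ⟨T, hT⟩ := exists_classicalTower
  refine le_csInf ⟨#T, T, hT, rfl⟩ ?_
  rintro _ ⟨T, hT, rfl⟩
  exact aleph_one_le_classical T hT

/-- **Theorem.** In ZFC there is a `σ`-closed topological Ramsey space `(R, ≤, ≤*, r)` with
`𝔭_R = ℵ₀ < ℵ₁ ≤ 𝔱 = 𝔱_R`, hence `𝔭_R ≠ 𝔱_R`; both cardinals are attained minima of nonempty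
classes of cardinals, `≤*` is separative and every element has two `≤*`-incompatible elements
below it. -/
theorem result : ∃ (R : Type) (S : SigmaClosedTRS R),
    (∃ F, S.PFamily F) ∧ (∃ F, S.IsTower F) ∧
    S.pNumber = ℵ₀ ∧ S.tNumber = classicalT ∧ ℵ₁ ≤ S.tNumber ∧ S.pNumber ≠ S.tNumber ∧
    (∀ A B, ¬ S.star.le A B → ∃ C, S.star.le C A ∧ ¬ Compat S.star C B) ∧
    (∀ A, ∃ B C, S.star.le B A ∧ S.star.le C A ∧ ¬ Compat S.star B C) := by
  have ht : ℵ₁ ≤ sspace.tNumber := by rw [tNumber_eq]; exact aleph_one_le_classicalT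
  refine ⟨Elt, sspace, ⟨_, Xn_pfamily⟩, exists_tower, pNumber_eq, tNumber_eq, ht, ?_,
    separative, atomless⟩
  intro h
  rw [← h, pNumber_eq, aleph_one_le_iff] at ht
  exact lt_irrefl _ ht

end Pool.Agent.Results.MP_fdc1ac_lc.CountablePseudointersection
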